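import Mathlib
import Pool.Agent.Lib.helper23.Rec

set_option autoImplicit false

namespace Pool.Agent.Results.MP_d81239_gt.Main

open Set
open Cardinal hiding univ

universe u

noncomputable def l (Z : Type u) [TopologicalSpace Z] : Cardinal.{u} :=
  sInf {κ | ℵ₀ ≤ κ ∧ ∀ 𝒰 : Set (Set Z), (∀ U ∈ 𝒰, IsOpen U) → ⋃₀ 𝒰 = univ →
    ∃ 𝒱 ⊆ 𝒰, #𝒱 ≤ κ ∧ ⋃₀ 𝒱 = univ}

def MN (X : Type u) [TopologicalSpace X] : Prop := T1Space X ∧ ∃ H : X → Set X → Set X,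
  (∀ x U, IsOpen U → x ∈ U → IsOpen (H x U) ∧ x ∈ H x U ∧ H x U ⊆ U) ∧
    ∀ x U y V, IsOpen U → x ∈ U → IsOpen V → y ∈ V → (H x U ∩ H y V).Nonempty → x ∈ V ∨ y ∈ U

theorem result (X : Type u) [TopologicalSpace X] (hX : MN X) (Y : Set X) (hY : Dense Y) :
    l X ≤ l Y := by
  obtain ⟨_, H, h1, h2⟩ := hX
  refine csInf_le_csInf' ⟨max ℵ₀ #(Set Y), le_max_left _ _, fun 𝒰 _ h =>
    ⟨𝒰, subset_rfl, (mk_set_le _).trans (le_max_right _ _), h⟩⟩ fun κ ⟨k1, k2⟩ =>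
    ⟨k1, fun 𝒰 u1 u2 => ?_⟩
  choose U u3 u4 using eq_univ_iff_forall.1 u2
  have u5 (x) := u1 _ (u3 x)
  obtain ⟨D, d1, d2⟩ : ∃ D : Set X, #D ≤ κ ∧ Y ⊆ ⋃ d ∈ D, H d (U d) := by
    obtain ⟨𝒱, v1, v2, v3⟩ := k2 (range fun x => (↑) ⁻¹' H x (U x))
      (forall_mem_range.2 fun x => (h1 _ _ (u5 x) (u4 x)).1.preimage continuous_subtype_val)
      (eq_univ_of_forall fun y => ⟨_, mem_range_self y.1, (h1 _ _ (u5 _) (u4 _)).2.1⟩)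
    choose f hf using fun V : 𝒱 => v1 V.2
    refine ⟨range f, mk_range_le.trans v2, fun y hy => ?_⟩
    obtain ⟨V, h3, h4⟩ := eq_univ_iff_forall.1 v3 ⟨y, hy⟩
    exact mem_biUnion (mem_range_self (f := f) ⟨V, h3⟩) ((Set.ext_iff.1 (hf ⟨V, h3⟩) ⟨y, hy⟩).2 h4 :)
  have h3 (x) (hx : x ∉ ⋃ d ∈ D, U d) (V) (v1 : IsOpen V) (v2 : x ∈ V) : ∃ d ∈ D, d ∈ V := by
    obtain ⟨y, k3, k4⟩ := hY.exists_mem_open (h1 _ _ v1 v2).1 ⟨x, (h1 _ _ v1 v2).2.1⟩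
    obtain ⟨d, k5, k6⟩ := mem_iUnion₂.1 (d2 k3)
    exact ⟨d, k5, (h2 _ _ _ _ v1 v2 (u5 d) (u4 d) ⟨y, k4, k6⟩).resolve_left
      fun h => hx (mem_biUnion k5 h)⟩
  have v (x) := h1 _ _ (u5 x) (u4 x)
  have h4 (d : X) : ∃ B : Set X, #B ≤ κ ∧
      ∀ x ∉ ⋃ d ∈ D, U d, d ∈ H x (H x (U x)) → x ∈ ⋃ b ∈ B, U b := by
    obtain ⟨_, _⟩ := exists_wellFoundedLT (α := X)
    obtain ⟨B, hB⟩ := Pool.Agent.Lib.helper23.trans_rec (W := X) (S := Prop)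
      (fun x f s => s ↔ (x ∉ ⋃ d ∈ D, U d) ∧ d ∈ H x (H x (U x)) ∧ ∀ y < x, f y → x ∉ U y)
      (fun x f g s h h' => h'.trans (by
        rw [forall₂_congr fun y hy => imp_congr_left (iff_of_eq (h y hy))]))
      fun _ _ _ => ⟨_, Iff.rfl⟩
    refine ⟨{x | B x}, ?_, fun x k3 k4 => by_contra fun k5 => k5 (mem_biUnion
      ((hB x).2 ⟨k3, k4, fun y _ hy h => k5 (mem_biUnion hy h)⟩) (u4 x))⟩
    have b1 (x y) (hx : B x) (hy : B y) (h : y < x) : x ∉ U y := ((hB x).1 hx).2.2 y h hy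
    have b2 (x y) (hx : B x) (hy : B y) (h : y < x) : y ∈ H x (U x) :=
      (h2 _ _ _ _ (v x).1 (v x).2.1 (v y).1 (v y).2.1 ⟨d, ((hB x).1 hx).2.1, ((hB y).1 hy).2.1⟩).resolve_left
        fun k => b1 x y hx hy h ((v y).2.2 k)
    have b3 (y : {y | B y ∧ ∃ z, B z ∧ y < z}) : ∃ z O, y.1 < z ∧ B z ∧ (∀ w, B w → y.1 < w → z ≤ w) ∧
        IsOpen O ∧ z ∈ O ∧ ∀ w, B w → w ∈ O → w = z := by
      obtain ⟨z, ⟨z1, z2⟩, z3⟩ := wellFounded_lt.has_min {z | B z ∧ y.1 < z} y.2.2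
      have z4 : IsOpen (U z \ {y.1}) := (u5 z).sdiff isClosed_singleton
      have z5 : z ∈ U z \ {y.1} := ⟨u4 z, z2.ne'⟩
      refine ⟨z, H z (U z \ {y.1}), z2, z1, fun w k k' => le_of_not_gt (z3 w ⟨k, k'⟩),
        (h1 _ _ z4 z5).1, (h1 _ _ z4 z5).2.1, fun w k k' => ?_⟩
      have k3 := (h1 _ _ z4 z5).2.2 k'
      obtain k4 | k4 | k4 := lt_trichotomy w y.1
      · obtain k5 | k5 := h2 _ _ _ _ z4 z5 (u5 _) (u4 _) ⟨w, k', b2 _ _ y.2.1 k k4⟩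
        exacts [(b1 _ _ z1 y.2.1 z2 k5).elim, (k5.2 rfl).elim]
      · exact (k3.2 k4).elim
      · exact (le_of_not_gt fun h => b1 _ _ k z1 h k3.1).antisymm (le_of_not_gt (z3 w ⟨k, k4⟩))
    choose z O z1 z2 z3 z4 z5 z6 using b3
    choose e e1 e2 using fun y => h3 _ ((hB _).1 (z2 y)).1 _ (h1 _ _ (z4 y) (z5 y)).1
      (h1 _ _ (z4 y) (z5 y)).2.1
    have b4 : #{y | B y ∧ ∃ z, B z ∧ y < z} ≤ #D := by
      refine mk_le_of_injective (f := fun y => ⟨e y, e1 y⟩) fun a b h => ?_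
      have k : z a = z b := by
        obtain k | k := h2 _ _ _ _ (z4 a) (z5 a) (z4 b) (z5 b)
          ⟨_, e2 a, (show e a = e b from congrArg Subtype.val h) ▸ e2 b⟩
        exacts [z6 b _ (z2 a) k, (z6 a _ (z2 b) k).symm]
      exact le_antisymm (le_of_not_gt fun h => (z3 b a a.2.1 h).not_gt (k ▸ z1 a))
        (le_of_not_gt fun h => (z3 a b b.2.1 h).not_gt (k ▸ z1 b))
    have b5 : {y | B y ∧ ¬ ∃ z, B z ∧ y < z}.Subsingleton := fun a h b h' =>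
      le_antisymm (le_of_not_gt fun k => h'.2 ⟨a, h.1, k⟩) (le_of_not_gt fun k => h.2 ⟨b, h'.1, k⟩)
    refine (mk_le_mk_of_subset fun y hy => (em _).imp (And.intro hy) (And.intro hy)).trans
      ((mk_union_le _ _).trans (add_le_of_le k1 (b4.trans d1)
        ((mk_le_one_iff_set_subsingleton.2 b5).trans (one_le_aleph0.trans k1))))
  choose B h4 h5 using h4
  refine ⟨U '' (D ∪ ⋃ d ∈ D, B d), image_subset_iff.2 fun x _ => u3 x, mk_image_le.trans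
    ((mk_union_le _ _).trans (add_le_of_le k1 d1 ((mk_biUnion_le _ _).trans
      (mul_le_of_le k1 d1 (ciSup_le' fun d => h4 d))))), eq_univ_of_forall fun x => ?_⟩
  by_cases h : x ∈ ⋃ d ∈ D, U d
  · obtain ⟨d, k3, k4⟩ := mem_iUnion₂.1 h
    exact ⟨_, ⟨d, Or.inl k3, rfl⟩, k4⟩
  · obtain ⟨d, k3, k4⟩ := h3 x h _ (h1 _ _ (v x).1 (v x).2.1).1 (h1 _ _ (v x).1 (v x).2.1).2.1
    obtain ⟨b, k5, k6⟩ := mem_iUnion₂.1 (h5 d x h k4)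
    exact ⟨_, ⟨b, Or.inr (mem_biUnion k3 k5), rfl⟩, k6⟩

end Pool.Agent.Results.MP_d81239_gt.Main
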